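import Pool.Agent.Helper81.LT.Mod

namespace Pool.Agent.Helper70.LT

open Pool.Agent.Helper81.LT
open FirstOrder Language

section General

variable {M : Type} [LA.Structure M] {α β : Type}

/-- Existential quantification over finitely many variables. -/
theorem Dfn_exs [Finite β] {P : (α → M) → (β → M) → Prop}
    (hP : Dfn (fun u : α ⊕ β → M => P (fun a => u (Sum.inl a)) (fun b => u (Sum.inr b)))) :
    Dfn (fun v : α → M => ∃ x : β → M, P v x) := by
  obtain ⟨φ, hφ⟩ := hP
  refine ⟨(φ.relabel (Sum.elim (Sum.elim (fun a => Sum.inl (Sum.inl a)) fun b => Sum.inr b)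
    fun p => Sum.inl (Sum.inr p)) : LA.Formula ((α ⊕ M) ⊕ β)).iExs β, fun v => ?_⟩
  rw [Formula.realize_iExs]
  constructor
  · rintro ⟨w, hw⟩
    rw [Formula.realize_relabel] at hw
    refine ⟨w, ?_⟩
    have h := (hφ (Sum.elim v w)).1
    refine h ?_
    convert hw using 1
    funext i
    rcases i with (a | u) | p
    · rfl
    · rfl
    · rfl
  · rintro ⟨x, hx⟩
    refine ⟨x, ?_⟩
    rw [Formula.realize_relabel]
    have h := (hφ (Sum.elim v x)).2 hx
    convert h using 1
    funext i
    rcases i with (a | u) | p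
    · rfl
    · rfl
    · rfl

theorem Dfn_formula (φ : LA.Formula β) : Dfn (fun u : β → M => φ.Realize u) := by
  refine ⟨φ.relabel Sum.inl, fun v => ?_⟩
  rw [Formula.realize_relabel]
  rfl

end General

attribute [local instance] stdStr

theorem choi (hO : OVER) : CHOI := by
  intro Λ _ _ M _ _ _ _ t D hD Q hQ k φ g hg
  have hO1 := (hO M).1
  have hgF : ∀ i, DefF (g i) := by
    intro i
    rcases hQ with hQ | ⟨s, hQ⟩
    · have := hg i
      rw [hQ] at this
      exact this
    · have := hg i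
      rw [hQ] at this
      exact this.1
  have hW : ∀ p : Fin k → M, ∃ y : M,
      (φ.Realize (Sum.elim p fun _ => y) ∧ ∀ z, z < y → ¬ φ.Realize (Sum.elim p fun _ => z)) ∨
      ((∀ z, ¬ φ.Realize (Sum.elim p fun _ => z)) ∧ y = 0) := by
    intro p
    by_cases h : ∃ y, φ.Realize (Sum.elim p fun _ => y)
    · obtain ⟨y, hy1, hy2⟩ := hO1 (fun y => φ.Realize (Sum.elim p fun _ => y)) (by
        refine ⟨φ.relabel (Sum.elim (fun i => Sum.inr (p i)) fun _ => Sum.inl ()), fun v => ?_⟩
        rw [Formula.realize_relabel]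
        have : ((Sum.elim v id : Unit ⊕ M → M) ∘
          (Sum.elim (fun i => Sum.inr (p i)) fun _ => Sum.inl () : Fin k ⊕ Unit → Unit ⊕ M)) =
          Sum.elim p fun _ => v () := by
          funext i
          cases i <;> rfl
        rw [this]) h
      exact ⟨y, Or.inl ⟨hy1, hy2⟩⟩
    · exact ⟨0, Or.inr ⟨fun z hz => h ⟨z, hz⟩, rfl⟩⟩
  choose W hW using hW
  have hWu : ∀ (p : Fin k → M) (y : M),
      ((φ.Realize (Sum.elim p fun _ => y) ∧ ∀ z, z < y → ¬ φ.Realize (Sum.elim p fun _ => z)) ∨
      ((∀ z, ¬ φ.Realize (Sum.elim p fun _ => z)) ∧ y = 0)) → W p = y := by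
    intro p y hy
    rcases hW p with ⟨h1, h2⟩ | ⟨h1, h2⟩
    · rcases hy with ⟨h3, h4⟩ | ⟨h3, _⟩
      · rcases lt_trichotomy (W p) y with h | h | h
        · exact absurd h1 (h4 _ h)
        · exact h
        · exact absurd h3 (h2 _ h)
      · exact absurd h1 (h3 _)
    · rcases hy with ⟨h3, _⟩ | ⟨_, h4⟩
      · exact absurd h3 (h1 _)
      · rw [h2, h4]
  set w : M → M := fun v => W fun i => g i v with hw
  have hwF : DefF w := by
    have hΦ := Dfn_formula (M := M) φ
    have h1 : Dfn (fun u : Fin 2 ⊕ Fin k → M => (∀ i, g i (u (Sum.inl 0)) = u (Sum.inr i)) ∧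
        ((φ.Realize (Sum.elim (fun i => u (Sum.inr i)) fun _ => u (Sum.inl 1)) ∧
          ∀ z, z < u (Sum.inl 1) → ¬ φ.Realize (Sum.elim (fun i => u (Sum.inr i)) fun _ => z)) ∨
        ((∀ z, ¬ φ.Realize (Sum.elim (fun i => u (Sum.inr i)) fun _ => z)) ∧
          u (Sum.inl 1) = 0))) := by
      refine Dfn.and (Dfn.allFin fun i => ?_) (Dfn.or (Dfn.and ?_ ?_) (Dfn.and ?_ ?_))
      · exact Dfn.app₂ (R := fun a b => g i a = b) (hgF i) (Tm.var _) (Tm.var _)
      · refine (hΦ.comp (Sum.elim (fun i => Sum.inr i) fun _ => Sum.inl 1)).congr fun v => ?_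
        have : (fun b : Fin k ⊕ Unit => v ((Sum.elim (fun i => Sum.inr i) fun _ => Sum.inl 1 :
            Fin k ⊕ Unit → Fin 2 ⊕ Fin k) b)) =
            Sum.elim (fun i => v (Sum.inr i)) fun _ => v (Sum.inl 1) := by
          funext i
          cases i <;> rfl
        rw [this]
      · refine Dfn.ball (P := fun (u : Fin 2 ⊕ Fin k → M) z =>
          ¬ φ.Realize (Sum.elim (fun i => u (Sum.inr i)) fun _ => z)) (Tm.var _) (Dfn.not ?_)
        refine (hΦ.comp (Sum.elim (fun i => Sum.inl (Sum.inr i)) fun _ => Sum.inr ())).congr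
          fun v => ?_
        have : (fun b : Fin k ⊕ Unit => v ((Sum.elim (fun i => Sum.inl (Sum.inr i))
            fun _ => Sum.inr () : Fin k ⊕ Unit → (Fin 2 ⊕ Fin k) ⊕ Unit) b)) =
            Sum.elim (fun i => v (Sum.inl (Sum.inr i))) fun _ => v (Sum.inr ()) := by
          funext i
          cases i <;> rfl
        rw [this]
      · refine Dfn.all (P := fun (u : Fin 2 ⊕ Fin k → M) z =>
          ¬ φ.Realize (Sum.elim (fun i => u (Sum.inr i)) fun _ => z)) (Dfn.not ?_)
        refine (hΦ.comp (Sum.elim (fun i => Sum.inl (Sum.inr i)) fun _ => Sum.inr ())).congr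
          fun v => ?_
        have : (fun b : Fin k ⊕ Unit => v ((Sum.elim (fun i => Sum.inl (Sum.inr i))
            fun _ => Sum.inr () : Fin k ⊕ Unit → (Fin 2 ⊕ Fin k) ⊕ Unit) b)) =
            Sum.elim (fun i => v (Sum.inl (Sum.inr i))) fun _ => v (Sum.inr ()) := by
          funext i
          cases i <;> rfl
        rw [this]
      · exact Dfn.eq (Tm.var _) (Tm.par 0)
    refine (Dfn_exs (P := fun (v : Fin 2 → M) (x : Fin k → M) => (∀ i, g i (v 0) = x i) ∧
        ((φ.Realize (Sum.elim x fun _ => v 1) ∧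
          ∀ z, z < v 1 → ¬ φ.Realize (Sum.elim x fun _ => z)) ∨
        ((∀ z, ¬ φ.Realize (Sum.elim x fun _ => z)) ∧
          v 1 = 0))) h1).congr fun v => ?_
    constructor
    · rintro ⟨x, hx1, hx2⟩
      have hx : (fun i => g i (v 0)) = x := funext hx1
      change W (fun i => g i (v 0)) = v 1
      rw [hx]
      exact hWu x _ hx2
    · intro h
      refine ⟨fun i => g i (v 0), fun i => rfl, ?_⟩
      rw [← h]
      exact hW _
  refine ⟨w, ?_, ?_⟩
  · rcases hQ with hQ | ⟨s, hQ⟩
    · rw [hQ]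
      exact hwF
    · rw [hQ]
      refine ⟨hwF, ?_⟩
      have hc : ∀ i, ∃ n, ∀ u v, D n u → D n v → s ≤ t u v → g i u = g i v := by
        intro i
        have := hg i
        rw [hQ] at this
        exact this.2
      choose n hn using hc
      have hanti : ∀ a b, a ≤ b → ∀ u, D b u → D a u := by
        intro a b hab
        induction hab with
        | refl => exact fun _ h => h
        | step _ ih => exact fun u h => ih u (hD _ u h)
      refine ⟨Finset.univ.sup n, fun u v hu hv hs => ?_⟩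
      rw [hw]
      simp only
      congr 1
      funext i
      exact hn i u v (hanti _ _ (Finset.le_sup (Finset.mem_univ i)) u hu)
        (hanti _ _ (Finset.le_sup (Finset.mem_univ i)) v hv) hs
  · rintro v ⟨y, hy⟩
    rcases hW (fun i => g i v) with h | h
    · exact h.1
    · exact absurd hy (h.1 y)

end Pool.Agent.Helper70.LT
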