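import Pool.Agent.Helper81.LT.Comb

namespace Pool.Agent.Helper70.LT

open Pool.Agent.Helper81.LT

universe u

variable {Λ : Type u} [Lattice Λ] [BoundedOrder Λ]

lemma pow_sub (T0 : Sp Λ) {I : Type} [Fintype I] {M : ℕ} (σ : (Fin M → T0.A) → I → T0.A)
    (hσ : IsSub σ) (w w' : Fin M → T0.A) :
    (T0.pow I).t (σ w) (σ w') = Finset.univ.inf fun k => T0.t (w k) (w' k) := by
  change (Finset.univ.inf fun i => T0.t (σ w i) (σ w' i)) = _
  apply le_antisymm
  · refine Finset.le_inf fun k _ => ?_
    obtain ⟨i, hi⟩ := hσ.2 k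
    rw [← hi w, ← hi w']
    exact Finset.inf_le (f := fun i => T0.t (σ w i) (σ w' i)) (Finset.mem_univ i)
  · refine Finset.le_inf fun i _ => ?_
    rcases hσ.1 i with ⟨k, hk⟩ | ⟨c, hc⟩
    · rw [hk w, hk w']
      exact Finset.inf_le (f := fun k => T0.t (w k) (w' k)) (Finset.mem_univ k)
    · rw [hc w, hc w', T0.refl]
      exact le_top

/-- hybrid argument -/
lemma hybrid {A I : Type} {M : ℕ} (Θ : Setoid (I → A)) (σ : (Fin M → A) → I → A) (ρ : Setoid A)
    (hint : ∀ (p q : ℕ), p < q → q ≤ M → ∀ (x : Fin M → A) (a b : A),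
        Θ (σ (fillI x p q a)) (σ (fillI x p q b)) ↔ ρ a b)
    (w w' : Fin M → A) (h : ∀ k, ρ (w k) (w' k)) : Θ (σ w) (σ w') := by
  have key : ∀ n, n ≤ M → Θ (σ w) (σ (fun k => if k.val < n then w' k else w k)) := by
    intro n
    induction n with
    | zero =>
      intro _
      simp only [Nat.not_lt_zero, if_false]
      exact Θ.refl _
    | succ n ih =>
      intro hn
      have hn' : n < M := hn
      refine Θ.trans (ih hn'.le) ?_
      have := (hint n (n + 1) (Nat.lt_succ_self n) hn
        (fun k => if k.val < n then w' k else w k) (w ⟨n, hn'⟩) (w' ⟨n, hn'⟩)).2 (h _)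
      convert this using 2
      · funext k
        unfold fillI
        by_cases hk : n ≤ k.val ∧ k.val < n + 1
        · have hk' : k.val = n := by omega
          rw [if_pos hk, if_neg (by omega)]
          congr 1
          exact Fin.ext hk'
        · rw [if_neg hk]
      · funext k
        unfold fillI
        by_cases hk : n ≤ k.val ∧ k.val < n + 1
        · have hk' : k.val = n := by omega
          rw [if_pos hk, if_pos (by omega)]
          congr 1
          exact Fin.ext hk'
        · rw [if_neg hk]
          beta_reduce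
          by_cases hk2 : k.val < n
          · rw [if_pos hk2, if_pos (by omega)]
          · rw [if_neg hk2, if_neg (by omega)]
  have := key M le_rfl
  convert this using 2
  funext k
  rw [if_pos k.isLt]

/-- the letters -/
noncomputable def lett {A B : Type} {r : ℕ} (e : A → B) (f c : Fin r → A → B)
    (j : Fin r → Fin (r + 1)) (k : ℕ) : A → B :=
  if k = 0 then e else
    if h : (k - 1) / r < r then
      (if (k - 1) % r < (j ⟨(k - 1) / r, h⟩).val then f ⟨(k - 1) / r, h⟩ else c ⟨(k - 1) / r, h⟩)
    else e

lemma lett_mem {A B : Type} {r : ℕ} (F : Set (A → B)) (e : A → B) (f c : Fin r → A → B)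
    (he : e ∈ F) (hf : ∀ l, f l ∈ F) (hc : ∀ l, c l ∈ F)
    (j : Fin r → Fin (r + 1)) (k : ℕ) : lett e f c j k ∈ F := by
  unfold lett
  split_ifs
  · exact he
  · exact hf _
  · exact hc _
  · exact he

/-- the values in the block of `l` -/
lemma lett_block {A B : Type} {r : ℕ} (e : A → B) (f c : Fin r → A → B)
    (j : Fin r → Fin (r + 1)) (l : Fin r) (i : ℕ) (hi : i < r) :
    lett e f c j (1 + (l.val * r + i)) = if i < (j l).val then f l else c l := by
  have h1 : 1 + (l.val * r + i) - 1 = l.val * r + i := by omega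
  have hr : 0 < r := by omega
  have h2 : (l.val * r + i) / r = l.val := by
    rw [mul_comm, Nat.mul_add_div hr, Nat.div_eq_of_lt hi, add_zero]
  have h3 : (l.val * r + i) % r = i := by
    rw [mul_comm, Nat.mul_add_mod, Nat.mod_eq_of_lt hi]
  have h5 : ∀ h : (1 + (l.val * r + i) - 1) / r < r,
      (⟨(1 + (l.val * r + i) - 1) / r, h⟩ : Fin r) = l := by
    intro h
    apply Fin.ext
    simp only [h1, h2]
  unfold lett
  rw [if_neg (by omega), dif_pos (by rw [h1, h2]; exact l.isLt), h5, h1, h3]

/-- values outside of the block -/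
lemma lett_update {A B : Type} {r : ℕ} (e : A → B) (f c : Fin r → A → B)
    (j : Fin r → Fin (r + 1)) (l : Fin r) (v w : Fin (r + 1)) (k : ℕ)
    (hk : ∀ i, i < r → k ≠ 1 + (l.val * r + i)) :
    lett e f c (Function.update j l v) k = lett e f c (Function.update j l w) k := by
  unfold lett
  by_cases hk0 : k = 0
  · rw [if_pos hk0, if_pos hk0]
  · rw [if_neg hk0, if_neg hk0]
    by_cases h : (k - 1) / r < r
    · rw [dif_pos h, dif_pos h]
      have hr : 0 < r := by
        rcases Nat.eq_zero_or_pos r with h0 | h0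
        · subst h0; exact absurd h (Nat.not_lt_zero _)
        · exact h0
      have hne : (⟨(k - 1) / r, h⟩ : Fin r) ≠ l := by
        intro heq
        have h1 : (k - 1) / r = l.val := by rw [← heq]
        have h2 := Nat.div_add_mod (k - 1) r
        rw [h1] at h2
        apply hk ((k - 1) % r) (Nat.mod_lt _ hr)
        rw [mul_comm l.val r, h2]
        omega
      rw [Function.update_of_ne hne, Function.update_of_ne hne]
    · rw [dif_neg h, dif_neg h]

theorem thmr (Λ : Type u) [Lattice Λ] [BoundedOrder Λ] [Finite Λ] (hG : GOOD Λ) (hI : INT)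
    (hC : COUNT) : THMR Λ := by
  classical
  intro S
  rcases isEmpty_or_nonempty S.A with hE | hN
  · exact ⟨S, fun Θ _ => ⟨id, ⊤, fun a => hE.elim a, fun a => hE.elim a⟩⟩
  obtain ⟨T0, hT0⟩ := hG S
  have hNT : Nonempty T0.A := by
    obtain ⟨_, _, _, ⟨e, _, _⟩, _⟩ := hT0 ⊤ (fun _ _ _ => trivial)
    exact ⟨e hN.some⟩
  set r := Nat.card (S.A × S.A) with hr
  let en : S.A × S.A ≃ Fin r := Finite.equivFin _
  obtain ⟨I, hfI, hI⟩ := hI T0.A (1 + r * r)
  refine ⟨T0.pow I, ?_⟩
  intro Θ hΘ
  obtain ⟨σ, ρ, hsub, hint⟩ := hI Θ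
  have hρ : Resp T0 ρ := by
    intro a b hab
    have x : Fin (1 + r * r) → T0.A := fun _ => a
    refine (hint 0 1 Nat.one_pos (by omega) x a b).1 ?_
    apply hΘ
    rw [pow_sub T0 σ hsub]
    refine le_antisymm le_top (Finset.le_inf fun k _ => ?_)
    unfold fillI
    split_ifs
    · rw [hab]
    · rw [T0.refl]
  obtain ⟨s, F, hF1, ⟨e, heF, heI⟩, hFa, hFb⟩ := hT0 ρ hρ
  have hch : ∀ l : Fin r, ∃ f c : S.A → T0.A, f ∈ F ∧ c ∈ F ∧
      (¬ s ≤ S.t (en.symm l).1 (en.symm l).2 →
        ¬ ρ (f (en.symm l).1) (f (en.symm l).2) ∧ c = fun _ => f (en.symm l).2) := by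
    intro l
    by_cases h : s ≤ S.t (en.symm l).1 (en.symm l).2
    · exact ⟨e, e, heF, heF, fun h' => absurd h h'⟩
    · obtain ⟨f, hf, hf1, hf2⟩ := hFb _ _ h
      exact ⟨f, _, hf, hf2, fun _ => ⟨hf1, rfl⟩⟩
  choose f c hf hc hfc using hch
  set φ : (Fin r → Fin (r + 1)) → S.A → (I → T0.A) :=
    fun j a => σ (fun k => lett e f c j k.val a) with hφ
  have hpos : ∀ j a b, s ≤ S.t a b → Θ (φ j a) (φ j b) := by
    intro j a b hab
    apply hybrid Θ σ ρ hint
    intro k
    exact hFa _ (lett_mem F e f c heF hf hc j k.val) a b hab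
  have hiso : ∀ j, IsIso S (T0.pow I) (φ j) := by
    intro j a b
    rw [hφ]
    simp only
    rw [pow_sub T0 σ hsub]
    apply le_antisymm
    · have h0 : 0 < 1 + r * r := by omega
      refine le_trans (Finset.inf_le (Finset.mem_univ (⟨0, h0⟩ : Fin (1 + r * r)))) ?_
      have : lett e f c j 0 = e := by
        unfold lett
        rw [if_pos rfl]
      simp only [this]
      exact (heI a b).le
    · refine Finset.le_inf fun k _ => ?_
      exact hF1 _ (lett_mem F e f c heF hf hc j k.val) a b
  have hbad : ∀ (l : Fin r) (j : Fin r → Fin (r + 1)) (v w : Fin (r + 1)), v < w →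
      ¬ s ≤ S.t (en.symm l).1 (en.symm l).2 →
      Θ (φ (Function.update j l v) (en.symm l).1) (φ (Function.update j l v) (en.symm l).2) →
      Θ (φ (Function.update j l w) (en.symm l).1) (φ (Function.update j l w) (en.symm l).2) →
      False := by
    intro l j v w hvw hs h1 h2
    obtain ⟨hnρ, hcl⟩ := hfc l hs
    have hvw' : v.val < w.val := hvw
    have hwr : w.val ≤ r := Nat.lt_succ_iff.mp w.isLt
    have hlr : l.val < r := l.isLt
    have hmul : l.val * r + r ≤ r * r := by
      calc l.val * r + r = (l.val + 1) * r := by ring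
        _ ≤ r * r := Nat.mul_le_mul_right r hlr
    have hb : φ (Function.update j l v) (en.symm l).2 = φ (Function.update j l w) (en.symm l).2 := by
      rw [hφ]
      simp only
      congr 1
      funext k
      by_cases hk : ∀ i, i < r → k.val ≠ 1 + (l.val * r + i)
      · rw [lett_update e f c j l v w k.val hk]
      · push Not at hk
        obtain ⟨i, hi, hki⟩ := hk
        rw [hki, lett_block e f c _ l i hi, lett_block e f c _ l i hi, Function.update_self,
          Function.update_self, hcl]
        split_ifs <;> rfl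
    have h3 : Θ (φ (Function.update j l v) (en.symm l).1) (φ (Function.update j l w) (en.symm l).1) := by
      refine Θ.trans h1 ?_
      rw [hb]
      exact Θ.symm h2
    have hW1 : fillI (fun k : Fin (1 + r * r) =>
        lett e f c (Function.update j l v) k.val (en.symm l).1)
        (1 + (l.val * r + v.val)) (1 + (l.val * r + w.val)) (f l (en.symm l).2) =
        fun k => lett e f c (Function.update j l v) k.val (en.symm l).1 := by
      funext k
      unfold fillI
      by_cases hk : 1 + (l.val * r + v.val) ≤ k.val ∧ k.val < 1 + (l.val * r + w.val)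
      · rw [if_pos hk]
        obtain ⟨i, hi⟩ : ∃ i, k.val = 1 + (l.val * r + i) :=
          ⟨k.val - 1 - l.val * r, by omega⟩
        rw [hi, lett_block e f c _ l i (by omega), Function.update_self, if_neg (by omega), hcl]
      · rw [if_neg hk]
    have hW2 : fillI (fun k : Fin (1 + r * r) =>
        lett e f c (Function.update j l v) k.val (en.symm l).1)
        (1 + (l.val * r + v.val)) (1 + (l.val * r + w.val)) (f l (en.symm l).1) =
        fun k => lett e f c (Function.update j l w) k.val (en.symm l).1 := by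
      funext k
      unfold fillI
      by_cases hk : 1 + (l.val * r + v.val) ≤ k.val ∧ k.val < 1 + (l.val * r + w.val)
      · rw [if_pos hk]
        obtain ⟨i, hi⟩ : ∃ i, k.val = 1 + (l.val * r + i) :=
          ⟨k.val - 1 - l.val * r, by omega⟩
        rw [hi, lett_block e f c _ l i (by omega), Function.update_self, if_pos (by omega)]
      · rw [if_neg hk]
        beta_reduce
        by_cases hk2 : ∀ i, i < r → k.val ≠ 1 + (l.val * r + i)
        · rw [lett_update e f c j l v w k.val hk2]
        · push Not at hk2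
          obtain ⟨i, hi, hki⟩ := hk2
          rw [hki, lett_block e f c _ l i hi, lett_block e f c _ l i hi, Function.update_self,
            Function.update_self]
          by_cases hiv : i < v.val
          · rw [if_pos hiv, if_pos (by omega)]
          · rw [if_neg hiv, if_neg (by omega)]
    have h4 := (hint (1 + (l.val * r + v.val)) (1 + (l.val * r + w.val)) (by omega) (by omega)
      (fun k => lett e f c (Function.update j l v) k.val (en.symm l).1)
      (f l (en.symm l).2) (f l (en.symm l).1)).1 (by
        rw [hW1, hW2]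
        exact h3)
    exact hnρ (ρ.symm h4)
  obtain ⟨j, hj⟩ := hC r (fun l j => ¬ s ≤ S.t (en.symm l).1 (en.symm l).2 ∧
    Θ (φ j (en.symm l).1) (φ j (en.symm l).2)) (by
      intro l g v w h1 h2
      rcases lt_trichotomy v w with h | h | h
      · exact (hbad l g v w h h1.1 h1.2 h2.2).elim
      · exact h
      · exact (hbad l g w v h h1.1 h2.2 h1.2).elim)
  refine ⟨φ j, s, hiso j, ?_⟩
  intro a b
  constructor
  · intro h
    by_contra hs
    apply hj (en (a, b))
    rw [Equiv.symm_apply_apply]
    exact ⟨hs, h⟩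
  · exact hpos j a b

end Pool.Agent.Helper70.LT
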